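import Mathlib
import Pool.Agent.Lib.MP_2ab1ce_al.Assembly

/-!
# Uniform expansion of `SL_n(p)` for all generating sets containing a bounded seed

Fix `n`, `m ≥ 1` and `N`. We show that there is `ε > 0` such that for every prime `p`, every
symmetric generating set `S` of `SL_n(F_p)` (of any size) for which, in some basis of `F_p^n`, the
three elementary matrices `e_ij(m)`, `e_ji(m)`, `e_ik(m)` (`i, j, k` distinct) are products of at
most `N` elements of `S`, and every `Y` with `2 |Y| ≤ |SL_n(F_p)|`, the number of edges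
`(g, s g)` with `g ∈ Y`, `s g ∉ Y` is at least `ε |Y|`.

The proof has two parts: a relative property (T) estimate for the subgroup `F_p^2` of the group
generated by the seeds (`RelT.lean`), and a bounded generation argument: a length function on
`SL_n(F)` which is small on a generating set and on a two dimensional space of transvections with
a common hyperplane is small everywhere (`Config.lean`, `BoundedGen.lean`).
-/

namespace Pool.Agent.Results.MP_2ab1ce_al.SeededExpansion

open Matrix MP2ab1ce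

theorem result (n m N : ℕ) (hm : 1 ≤ m) :
    ∃ ε : ℝ, 0 < ε ∧ ∀ (p : ℕ) [Fact p.Prime]
      (S : Finset (SpecialLinearGroup (Fin n) (ZMod p))),
      (∀ s ∈ S, s⁻¹ ∈ S) →
      Subgroup.closure (S : Set (SpecialLinearGroup (Fin n) (ZMod p))) = ⊤ →
      ∀ (h : GL (Fin n) (ZMod p)) (i j k : Fin n), i ≠ j → i ≠ k → j ≠ k →
      (∀ q ∈ ({(i, j), (j, i), (i, k)} : Finset (Fin n × Fin n)),
        ∃ l : List (SpecialLinearGroup (Fin n) (ZMod p)), l.length ≤ N ∧ (∀ x ∈ l, x ∈ S) ∧
          ((l.prod : SpecialLinearGroup (Fin n) (ZMod p)) : Matrix (Fin n) (Fin n) (ZMod p)) =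
            (h : Matrix (Fin n) (Fin n) (ZMod p)) * transvection q.1 q.2 (m : ZMod p) *
              ((h⁻¹ : GL (Fin n) (ZMod p)) : Matrix (Fin n) (Fin n) (ZMod p))) →
      ∀ Y : Finset (SpecialLinearGroup (Fin n) (ZMod p)),
        2 * Y.card ≤ Fintype.card (SpecialLinearGroup (Fin n) (ZMod p)) →
        ε * Y.card ≤ (((Y ×ˢ S).filter (fun x => x.2 * x.1 ∉ Y)).card : ℝ) := by
  classical
  -- choice of the displacement threshold
  set f : ℝ → ℝ := fun δ => 3 * n * ((5 * n + 2) * ((20 * n + 8) ^ n * (δ +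
      √(128 * ((m + 4) * N * δ) + 32 * ((m ^ 2 : ℕ) + 1) ^ 2 * ((m + 4) * N * δ) ^ 2)))) with hf
  have hfc : Continuous f := by
    rw [hf]
    fun_prop
  have hf0 : f 0 = 0 := by
    rw [hf]
    simp
  obtain ⟨δ, hδ, hfδ⟩ : ∃ δ : ℝ, 0 < δ ∧ f δ < 1 := by
    have h1 : ∀ᶠ x in nhds (0 : ℝ), f x < 1 := by
      apply hfc.continuousAt.eventually_lt continuousAt_const
      rw [hf0]
      norm_num
    have h2 : ∀ᶠ x in nhdsWithin (0 : ℝ) (Set.Ioi 0), f x < 1 := h1.filter_mono nhdsWithin_le_nhds
    have h3 : ∀ᶠ x in nhdsWithin (0 : ℝ) (Set.Ioi 0), 0 < x := eventually_mem_nhdsWithin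
    obtain ⟨x, hx1, hx2⟩ := (h3.and h2).exists
    exact ⟨x, hx1, hx2⟩
  -- bound for the finitely many primes dividing `m`
  set C : ℝ := ((m ^ (n * n) : ℕ) : ℝ)⁻¹ with hC
  have hCpos : 0 < C := by
    rw [hC]
    have : 0 < m ^ (n * n) := Nat.pow_pos hm
    positivity
  refine ⟨min (δ ^ 2 / 2) C, lt_min (by positivity) hCpos, ?_⟩
  intro p _ S hSinv hS h i j k hij hik hjk hseed Y hY
  change _ ≤ ((edgeBoundary S Y).card : ℝ)
  rcases Y.eq_empty_or_nonempty with rfl | hne
  · simp
  have hYpos : (0 : ℝ) < Y.card := by exact_mod_cast hne.card_pos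
  by_cases hpm : p ∣ m
  · -- trivial bound
    have h1 := connected_bound S hSinv (fun P h1 h2 h3 =>
      gen_induct (S : Set (SpecialLinearGroup (Fin n) (ZMod p)))
        (fun s hs => by simpa using hSinv s (by simpa using hs)) hS P h1
        (fun s hs => h2 s (by simpa using hs)) h3) Y hne hY
    have h2 : (1 : ℝ) ≤ ((edgeBoundary S Y).card : ℝ) := by exact_mod_cast h1
    refine le_trans ?_ h2
    have hcard : Fintype.card (SpecialLinearGroup (Fin n) (ZMod p)) ≤ m ^ (n * n) := by
      have e1 : Fintype.card (SpecialLinearGroup (Fin n) (ZMod p)) ≤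
          Fintype.card (Matrix (Fin n) (Fin n) (ZMod p)) :=
        Fintype.card_le_of_injective (fun g : SpecialLinearGroup (Fin n) (ZMod p) =>
          (g : Matrix (Fin n) (Fin n) (ZMod p))) Subtype.coe_injective
      have e2 : Fintype.card (Matrix (Fin n) (Fin n) (ZMod p)) = p ^ (n * n) := by
        change Fintype.card (Fin n → Fin n → ZMod p) = _
        simp [pow_mul]
      rw [e2] at e1
      exact e1.trans (Nat.pow_le_pow_left (Nat.le_of_dvd hm hpm) _)
    have hYle : (Y.card : ℝ) ≤ ((m ^ (n * n) : ℕ) : ℝ) := by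
      have : Y.card ≤ m ^ (n * n) := (Finset.card_le_univ Y).trans hcard
      exact_mod_cast this
    calc min (δ ^ 2 / 2) C * Y.card ≤ C * Y.card :=
          mul_le_mul_of_nonneg_right (min_le_right _ _) hYpos.le
      _ ≤ C * ((m ^ (n * n) : ℕ) : ℝ) := mul_le_mul_of_nonneg_left hYle hCpos.le
      _ = 1 := by
        rw [hC]
        apply inv_mul_cancel₀
        have : 0 < m ^ (n * n) := Nat.pow_pos hm
        positivity
  · by_contra hcon
    push Not at hcon
    have hlt : ((edgeBoundary S Y).card : ℝ) < δ ^ 2 / 2 * Y.card :=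
      hcon.trans_le (mul_le_mul_of_nonneg_right (min_le_left _ _) hYpos.le)
    -- the unit vector
    have hnorm : ‖indv Y‖ ^ 2 = Y.card := norm_indv Y
    have hn0 : 0 < ‖indv Y‖ := by
      rcases (norm_nonneg (indv Y)).lt_or_eq with h | h
      · exact h
      · rw [← h] at hnorm
        norm_num at hnorm
        rw [← hnorm] at hYpos
        norm_num at hYpos
    set r : ℝ := ‖indv Y‖⁻¹ with hr
    have hr0 : 0 < r := inv_pos.2 hn0
    set v : EuclideanSpace ℂ (SpecialLinearGroup (Fin n) (ZMod p)) :=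
      (r : ℂ) • indv Y with hv
    have hv1 : ‖v‖ = 1 := by
      rw [hv, norm_smul, Complex.norm_real, Real.norm_eq_abs, abs_of_pos hr0, hr]
      exact inv_mul_cancel₀ hn0.ne'
    have hmove : ∀ g, ‖piG g v - v‖ = r * ‖piG g (indv Y) - indv Y‖ := by
      intro g
      rw [hv, map_smul, ← smul_sub, norm_smul, Complex.norm_real, Real.norm_eq_abs,
        abs_of_pos hr0]
    have hr2 : r ^ 2 * Y.card = 1 := by
      rw [← hnorm, ← mul_pow, hr, inv_mul_cancel₀ hn0.ne', one_pow]
    have hvS : ∀ s ∈ S, ‖piG s v - v‖ ≤ δ := by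
      intro s hs
      rw [hmove]
      apply abs_le_of_sq_le_sq' _ hδ.le |>.2
      have h1 := near_inv S hSinv Y s hs
      calc (r * ‖piG s (indv Y) - indv Y‖) ^ 2 = r ^ 2 * ‖piG s (indv Y) - indv Y‖ ^ 2 := by ring
        _ ≤ r ^ 2 * (2 * (edgeBoundary S Y).card) := mul_le_mul_of_nonneg_left h1 (by positivity)
        _ ≤ r ^ 2 * (2 * (δ ^ 2 / 2 * Y.card)) :=
          mul_le_mul_of_nonneg_left (by linarith) (by positivity)
        _ = δ ^ 2 * (r ^ 2 * Y.card) := by ring
        _ = δ ^ 2 := by rw [hr2, mul_one]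
    obtain ⟨g, hg⟩ := exists_far Y hY
    have hg1 : 1 ≤ ‖piG g v - v‖ := by
      rw [hmove]
      have h1 : 1 ≤ (r * ‖piG g (indv Y) - indv Y‖) ^ 2 := by
        calc (1 : ℝ) = r ^ 2 * Y.card := hr2.symm
          _ ≤ r ^ 2 * ‖piG g (indv Y) - indv Y‖ ^ 2 :=
            mul_le_mul_of_nonneg_left hg (by positivity)
          _ = _ := by ring
      by_contra hlt1
      push Not at hlt1
      have h0 : 0 ≤ r * ‖piG g (indv Y) - indv Y‖ := by positivity
      nlinarith
    have hfinal := core m N hm hpm S hSinv hS h i j k hij hik hjk hseed v hv1 δ hδ.le hvS g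
    have : f δ < 1 := hfδ
    rw [hf] at this
    linarith

end Pool.Agent.Results.MP_2ab1ce_al.SeededExpansion
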