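import Mathlib
import Pool.Agent.Lib.MP_2ab1ce_al.TR.Stm
import Pool.Agent.Lib.MP_2ab1ce_al.TR.P.par
import Pool.Agent.Lib.MP_2ab1ce_al.TR.P.cnt
import Pool.Agent.Lib.MP_2ab1ce_al.TR.P.q
import Pool.Agent.Lib.MP_2ab1ce_al.TR.P.bad
import Pool.Agent.Lib.MP_2ab1ce_al.TR.P.a1
import Pool.Agent.Lib.MP_2ab1ce_al.TR.P.a2
import Pool.Agent.Lib.MP_2ab1ce_al.TR.P.b1
import Pool.Agent.Lib.MP_2ab1ce_al.TR.P.b23
import Pool.Agent.Lib.MP_2ab1ce_al.TR.P.Q
import Pool.Agent.Lib.MP_2ab1ce_al.TR.P.op1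
import Pool.Agent.Lib.MP_2ab1ce_al.TR.P.op2
import Pool.Agent.Lib.MP_2ab1ce_al.TR.P.tri
import Pool.Agent.Lib.MP_2ab1ce_al.TR.P.sum
import Pool.Agent.Lib.MP_2ab1ce_al.TR.P.lya
import Pool.Agent.Lib.MP_2ab1ce_al.TR.P.fp
import Pool.Agent.Lib.MP_2ab1ce_al.TR.P.nz
import Pool.Agent.Lib.MP_2ab1ce_al.TR.P.sch
import Pool.Agent.Lib.MP_2ab1ce_al.TR.P.spec
import Pool.Agent.Lib.MP_2ab1ce_al.TR.P.tra
import Pool.Agent.Lib.MP_2ab1ce_al.TR.P.mov
import Pool.Agent.Lib.MP_2ab1ce_al.TR.P.rel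
import Pool.Agent.Lib.MP_2ab1ce_al.TR.P.el
import Pool.Agent.Lib.MP_2ab1ce_al.TR.P.grp
import Pool.Agent.Lib.MP_2ab1ce_al.TR.P.dig
import Pool.Agent.Lib.MP_2ab1ce_al.TR.P.fin

/-!
# Uniform expansion of `SL_n(p)` for generating sets with elementary matrices of arbitrary
coefficients

Fix `n`. There is `c > 0` such that for every `N ≥ 1`, every prime `p` and every symmetric
generating set `S` of `SL_n(F_p)` (of any size): if, in some basis of `F_p^n`, elementary matrices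
`e_xy(a_xy)` with ARBITRARY nonzero coefficients `a_xy ∈ F_p`, for the edges `x → y` of a digraph
`E`, are products of at most `N` elements of `S`, and at least three indices lie in one strongly
connected component of `E`, then every set `Y` with `2 |Y| ≤ |SL_n(F_p)|` has at least
`(c / N²) |Y|` edges `(g, s g)` with `g ∈ Y`, `s g ∉ Y`.

In particular, for fixed `n ≥ 3`, all Cayley graphs of `SL_n(p)`, all `p`, with respect to
generating sets consisting of elementary matrices (with arbitrary coefficients, depending on `p`)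
form one expanding family.

The heart is a relative property (T) estimate for `F_p^2` which is uniform in `p` and in the
coefficients. It is proved by a Lyapunov function on sequences in `ℝ/ℤ` (see `TR/Stm.lean`).
-/

namespace Pool.Agent.Results.MP_2ab1ce_al.TransvectionSeeds

open Matrix Pool.Agent.MP_2ab1ce_al.TR

theorem result (n : ℕ) :
    ∃ c : ℝ, 0 < c ∧ ∀ (N p : ℕ) [Fact p.Prime], 1 ≤ N →
      ∀ S : Finset (SpecialLinearGroup (Fin n) (ZMod p)),
      (∀ s ∈ S, s⁻¹ ∈ S) →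
      Subgroup.closure (S : Set (SpecialLinearGroup (Fin n) (ZMod p))) = ⊤ →
      ∀ (h : GL (Fin n) (ZMod p)) (E : Fin n → Fin n → Prop) (a : Fin n → Fin n → ZMod p),
      (∀ x y, E x y → x ≠ y ∧ a x y ≠ 0 ∧
        ∃ l : List (SpecialLinearGroup (Fin n) (ZMod p)), l.length ≤ N ∧ (∀ s ∈ l, s ∈ S) ∧
          ((l.prod : SpecialLinearGroup (Fin n) (ZMod p)) : Matrix (Fin n) (Fin n) (ZMod p)) =
            (h : Matrix (Fin n) (Fin n) (ZMod p)) * transvection x y (a x y) *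
              ((h⁻¹ : GL (Fin n) (ZMod p)) : Matrix (Fin n) (Fin n) (ZMod p))) →
      ∀ I : Finset (Fin n), 3 ≤ I.card → (∀ x ∈ I, ∀ y ∈ I, Relation.ReflTransGen E x y) →
      ∀ Y : Finset (SpecialLinearGroup (Fin n) (ZMod p)),
        2 * Y.card ≤ Fintype.card (SpecialLinearGroup (Fin n) (ZMod p)) →
        c / (N : ℝ) ^ 2 * Y.card ≤
          (((Y ×ˢ S).filter (fun x => x.2 * x.1 ∉ Y)).card : ℝ) := by
  have hq : S_q := p_q
  have hbad : S_bad := p_bad p_cnt
  have hQ : S_Q := p_Q hq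
  have hop1 : S_op1 := p_op1 hq hQ (p_a1 hq hbad) (p_a2 hq hbad)
  have hop2 : S_op2 := p_op2 hq hQ (p_b1 hq hbad) (p_b23 hq hbad)
  have htri : S_tri := p_tri hq hQ hop1 hop2
  have hlya : S_lya := p_lya hQ htri p_sum
  have hrel : S_rel := p_rel p_par hlya (p_fp hq hQ) (p_nz hq hQ) p_sch p_spec p_tra p_mov
  exact p_fin hrel p_el (p_grp p_el) p_dig n

end Pool.Agent.Results.MP_2ab1ce_al.TransvectionSeeds
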